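import Pool.Agent.H79.TriS.PartA
import Pool.Agent.H83.TriS.B
import Pool.Agent.H24.Tri.Osc

/-! Project TRI, section S, part C: heavy triples, OSC and SS applied to pieces. -/

set_option autoImplicit false

open MeasureTheory Set Complex Metric Filter Topology
open scoped Real ENNReal NNReal FourierTransform ComplexConjugate

namespace Pool.Agent.H24.Tri

theorem tc_norm_cis (θ : ℝ) : ‖cis θ‖ = 1 := by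
  unfold cis
  exact Complex.norm_exp_ofReal_mul_I θ

theorem tc_continuous_cis : Continuous cis := by
  unfold cis
  fun_prop

/-- Cauchy-Schwarz in the form used below -/
theorem tc_cs (f T : ℂ → ℂ) (A B : ℝ) (hA : 0 ≤ A) (hB : 0 ≤ B)
    (hf : AEMeasurable f volume) (hT : AEMeasurable T volume)
    (h1 : ∫⁻ z, ‖f z‖ₑ ^ 2 ≤ ENNReal.ofReal A) (h2 : ∫⁻ z, ‖T z‖ₑ ^ 2 ≤ ENNReal.ofReal B) :
    ‖∫ z, f z * T z‖ ≤ Real.sqrt A * Real.sqrt B := by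
  have h3 : ‖∫ z, f z * T z‖ₑ ≤ ENNReal.ofReal (Real.sqrt A * Real.sqrt B) := by
    calc ‖∫ z, f z * T z‖ₑ ≤ ∫⁻ z, ‖f z * T z‖ₑ := enorm_integral_le_lintegral_enorm _
      _ = ∫⁻ z, ((fun z => ‖f z‖ₑ) * fun z => ‖T z‖ₑ) z := by
          refine lintegral_congr fun z => ?_
          simp [enorm_mul]
      _ ≤ (∫⁻ z, ‖f z‖ₑ ^ (2 : ℝ)) ^ (1 / (2 : ℝ)) * (∫⁻ z, ‖T z‖ₑ ^ (2 : ℝ)) ^ (1 / (2 : ℝ)) :=
          ENNReal.lintegral_mul_le_Lp_mul_Lq volume Real.HolderConjugate.two_two hf.enorm hT.enorm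
      _ ≤ (ENNReal.ofReal A) ^ (1 / (2 : ℝ)) * (ENNReal.ofReal B) ^ (1 / (2 : ℝ)) := by
          gcongr
          · simpa using h1
          · simpa using h2
      _ = ENNReal.ofReal (Real.sqrt A * Real.sqrt B) := by
          rw [ENNReal.ofReal_mul (Real.sqrt_nonneg _), Real.sqrt_eq_rpow, Real.sqrt_eq_rpow,
            ENNReal.ofReal_rpow_of_nonneg hA (by norm_num),
            ENNReal.ofReal_rpow_of_nonneg hB (by norm_num)]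
  have h4 : ENNReal.ofReal ‖∫ z, f z * T z‖ ≤ ENNReal.ofReal (Real.sqrt A * Real.sqrt B) := by
    rwa [ofReal_norm_eq_enorm]
  exact (ENNReal.ofReal_le_ofReal_iff (by positivity)).1 h4

theorem tc_nice_l2 (h : ℂ → ℂ) (hh : Nice h) :
    ∫⁻ z, ‖𝓕⁻ h z‖ₑ ^ 2 = ENNReal.ofReal (∫ z, ‖h z‖ ^ 2) := by
  rw [← plancherel_sq h hh]
  have hm := (nice_memLp h hh).2
  have hi : Integrable (fun z => ‖𝓕⁻ h z‖ ^ 2) volume := by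
    have := hm.integrable_norm_pow (p := 2) (by norm_num)
    simpa using this
  rw [ofReal_integral_eq_lintegral_ofReal hi (Filter.Eventually.of_forall fun z => by positivity)]
  refine lintegral_congr fun z => ?_
  rw [ENNReal.ofReal_pow (norm_nonneg _), ofReal_norm_eq_enorm]

theorem tc_nice_bdd (a : ℂ → ℂ) (ha : Nice a) : ∃ B : ℝ, 0 ≤ B ∧ ∀ z, ‖𝓕⁻ a z‖ ≤ B := by
  refine ⟨∫ z, ‖a z‖, integral_nonneg fun _ => norm_nonneg _, fun z => ?_⟩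
  rw [Real.fourierInv_eq]
  refine (norm_integral_le_integral_norm _).trans (le_of_eq ?_)
  refine integral_congr_ae (Filter.Eventually.of_forall fun v => ?_)
  simp

/-- the general form of the OSC bound -/
theorem tc_osc (α β : ℂ) (hα : α ≠ 0) : ∀ ε : ℝ, 0 < ε → ∃ A : ℝ, 0 < A ∧ ∀ R' : ℝ, 1 ≤ R' →
    ∀ h a : ℂ → ℂ, Nice h → Nice a → (∀ ξ, ‖ξ‖ < A * R' → a ξ = 0) →
    ∀ g : ℂ → ℂ, (∀ x, ‖g x‖ ≤ 1) → (∀ x y, ‖g x - g y‖ ≤ R' * ‖x - y‖) → ∀ p q : ℂ,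
      ‖∫ θ in Ioc 0 (2 * π), ∫ z, 𝓕⁻ h z * (𝓕⁻ a (z + p + α * cis θ) *
        g (z + q + β * cis θ))‖ ≤
        ε * Real.sqrt (∫ z, ‖h z‖ ^ 2) * Real.sqrt (∫ z, ‖a z‖ ^ 2) := by
  intro ε hε
  obtain ⟨A, hA, H⟩ := osc α β hα ε hε
  refine ⟨A, hA, fun R' hR' h a hh ha hz g hg1 hg2 p q => ?_⟩
  have hgc : Continuous g := by
    have : LipschitzWith (Real.toNNReal R') g := by
      apply LipschitzWith.of_dist_le_mul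
      intro x y
      rw [dist_eq_norm, dist_eq_norm, Real.coe_toNNReal _ (by linarith)]
      exact hg2 x y
    exact this.continuous
  have hac := nice_continuous a ha
  have hhc := nice_continuous h hh
  obtain ⟨Ba, hBa, hBa'⟩ := tc_nice_bdd a ha
  have hFc : Continuous fun x : ℝ × ℂ =>
      𝓕⁻ h x.2 * (𝓕⁻ a (x.2 + p + α * cis x.1) * g (x.2 + q + β * cis x.1)) := by
    have := tc_continuous_cis
    fun_prop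
  have hFi : Integrable (Function.uncurry fun (θ : ℝ) (z : ℂ) =>
      𝓕⁻ h z * (𝓕⁻ a (z + p + α * cis θ) * g (z + q + β * cis θ)))
      ((volume.restrict (Ioc 0 (2 * π))).prod volume) := by
    have hb : Integrable (fun x : ℝ × ℂ => (1 : ℝ) * (‖𝓕⁻ h x.2‖ * Ba))
        ((volume.restrict (Ioc 0 (2 * π))).prod volume) := by
      exact (integrable_const (1 : ℝ)).mul_prod ((nice_integrable h hh).2.norm.mul_const Ba)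
    refine hb.mono' hFc.aestronglyMeasurable (Filter.Eventually.of_forall fun x => ?_)
    simp only [Function.uncurry, norm_mul, one_mul]
    apply mul_le_mul_of_nonneg_left _ (norm_nonneg _)
    calc ‖𝓕⁻ a (x.2 + p + α * cis x.1)‖ * ‖g (x.2 + q + β * cis x.1)‖ ≤ Ba * 1 :=
          mul_le_mul (hBa' _) (hg1 _) (norm_nonneg _) hBa
      _ = Ba := mul_one _
  rw [integral_integral_swap hFi]
  simp_rw [integral_const_mul]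
  have hT : ∀ z : ℂ, ∫ θ in Ioc 0 (2 * π), 𝓕⁻ a (z + p + α * cis θ) * g (z + q + β * cis θ)
      = (fun y => ∫ θ in Ioc 0 (2 * π), 𝓕⁻ a (y + α * cis θ) *
          (fun x => g (x + (q - p))) (y + β * cis θ)) (z + p) := by
    intro z
    simp only
    refine integral_congr_ae (Filter.Eventually.of_forall fun θ => ?_)
    simp only
    congr 2
    ring
  have hO := H R' hR' a ha hz (fun x => g (x + (q - p))) (fun x => hg1 _) (fun x y => by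
    have := hg2 (x + (q - p)) (y + (q - p))
    simpa using this)
  simp_rw [hT]
  have hTm : Measurable (fun y => ∫ θ in Ioc 0 (2 * π), 𝓕⁻ a (y + α * cis θ) *
          (fun x => g (x + (q - p))) (y + β * cis θ)) := by
    have hc : Continuous fun x : ℂ × ℝ => 𝓕⁻ a (x.1 + α * cis x.2) *
          (fun x => g (x + (q - p))) (x.1 + β * cis x.2) := by
      have := tc_continuous_cis
      fun_prop
    exact (hc.stronglyMeasurable.integral_prod_right (ν := volume.restrict (Ioc 0 (2 * π)))).measurable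
  have := tc_cs (𝓕⁻ h) (fun z => (fun y => ∫ θ in Ioc 0 (2 * π), 𝓕⁻ a (y + α * cis θ) *
          (fun x => g (x + (q - p))) (y + β * cis θ)) (z + p)) (∫ z, ‖h z‖ ^ 2)
    (ε ^ 2 * ∫ z, ‖a z‖ ^ 2) (by positivity) (by positivity) hhc.measurable.aemeasurable
    (hTm.comp (measurable_id.add_const p)).aemeasurable (tc_nice_l2 h hh).le (by
      rw [lintegral_add_right_eq_self (fun y => ‖∫ θ in Ioc 0 (2 * π), 𝓕⁻ a (y + α * cis θ) *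
          (fun x => g (x + (q - p))) (y + β * cis θ)‖ₑ ^ 2) p]
      exact hO)
  refine this.trans (le_of_eq ?_)
  rw [Real.sqrt_mul (by positivity), Real.sqrt_sq hε.le]
  ring

/-- the OSC bound for Lam, oscillating second function -/
theorem osc_lam2 (ρ : ℂ) (hρ : ρ.im ≠ 0) : ∀ ε : ℝ, 0 < ε → ∃ A : ℝ, 0 < A ∧ ∀ R' : ℝ, 1 ≤ R' →
    ∀ h a : ℂ → ℂ, Nice h → Nice a → (∀ ξ, ‖ξ‖ < A * R' → a ξ = 0) →
    ∀ g : ℂ → ℂ, (∀ x, ‖g x‖ ≤ 1) → (∀ x y, ‖g x - g y‖ ≤ R' * ‖x - y‖) → ∀ w : ℂ,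
      ‖Lam ρ (𝓕⁻ h) (𝓕⁻ a) g w‖ ≤
        ε * Real.sqrt (∫ z, ‖h z‖ ^ 2) * Real.sqrt (∫ z, ‖a z‖ ^ 2) := by
  intro ε hε
  obtain ⟨A, hA, H⟩ := tc_osc 1 ρ one_ne_zero ε hε
  refine ⟨A, hA, fun R' hR' h a hh ha hz g hg1 hg2 w => ?_⟩
  refine le_trans (le_of_eq ?_) (H R' hR' h a hh ha hz g hg1 hg2 w (ρ * w))
  congr 1
  unfold Lam tri
  refine integral_congr_ae (Filter.Eventually.of_forall fun θ => ?_)
  refine integral_congr_ae (Filter.Eventually.of_forall fun z => ?_)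
  simp only
  rw [mul_assoc]
  congr 3 <;> ring

/-- the OSC bound for Lam, oscillating third function -/
theorem osc_lam3 (ρ : ℂ) (hρ : ρ.im ≠ 0) : ∀ ε : ℝ, 0 < ε → ∃ A : ℝ, 0 < A ∧ ∀ R' : ℝ, 1 ≤ R' →
    ∀ h a : ℂ → ℂ, Nice h → Nice a → (∀ ξ, ‖ξ‖ < A * R' → a ξ = 0) →
    ∀ g : ℂ → ℂ, (∀ x, ‖g x‖ ≤ 1) → (∀ x y, ‖g x - g y‖ ≤ R' * ‖x - y‖) → ∀ w : ℂ,
      ‖Lam ρ (𝓕⁻ h) g (𝓕⁻ a) w‖ ≤
        ε * Real.sqrt (∫ z, ‖h z‖ ^ 2) * Real.sqrt (∫ z, ‖a z‖ ^ 2) := by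
  intro ε hε
  have hρ0 : ρ ≠ 0 := by rintro rfl; exact hρ rfl
  obtain ⟨A, hA, H⟩ := tc_osc ρ 1 hρ0 ε hε
  refine ⟨A, hA, fun R' hR' h a hh ha hz g hg1 hg2 w => ?_⟩
  refine le_trans (le_of_eq ?_) (H R' hR' h a hh ha hz g hg1 hg2 (ρ * w) w)
  congr 1
  unfold Lam tri
  refine integral_congr_ae (Filter.Eventually.of_forall fun θ => ?_)
  refine integral_congr_ae (Filter.Eventually.of_forall fun z => ?_)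
  simp only
  rw [mul_assoc, mul_comm (g _)]
  congr 3 <;> ring

theorem tc_nice_shift (a : ℂ → ℂ) (ha : Nice a) (b : ℂ) : Nice fun ξ => a (ξ + b) := by
  constructor
  · exact ha.smooth.comp (contDiff_id.add contDiff_const)
  · exact ha.compact.comp_homeomorph (Homeomorph.addRight b)

theorem tc_norm_shift (a : ℂ → ℂ) (b z : ℂ) :
    ‖𝓕⁻ (fun ξ => a (ξ + b)) z‖ = ‖𝓕⁻ a z‖ := by
  rw [modulate, norm_mul, Complex.norm_exp_ofReal_mul_I, one_mul]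

theorem tc_int_shift (a : ℂ → ℂ) (b : ℂ) : ∫ ξ, ‖a (ξ + b)‖ ^ 2 = ∫ ξ, ‖a ξ‖ ^ 2 :=
  integral_add_right_eq_self (fun ξ => ‖a ξ‖ ^ 2) b

theorem tc_tri_smul (ρ : ℂ) (b₁ b₂ b₃ : ℂ) (f₁ f₂ f₃ : ℂ → ℂ) (v : ℂ) :
    tri ρ (fun z => b₁ * f₁ z) (fun z => b₂ * f₂ z) (fun z => b₃ * f₃ z) v
      = (b₁ * b₂ * b₃) * tri ρ f₁ f₂ f₃ v := by
  unfold tri
  rw [← integral_const_mul]
  refine integral_congr_ae (Filter.Eventually.of_forall fun z => ?_)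
  simp only
  ring

theorem tc_Lam_smul (ρ : ℂ) (b₁ b₂ b₃ : ℂ) (f₁ f₂ f₃ : ℂ → ℂ) (w : ℂ) :
    Lam ρ (fun z => b₁ * f₁ z) (fun z => b₂ * f₂ z) (fun z => b₃ * f₃ z) w
      = (b₁ * b₂ * b₃) * Lam ρ f₁ f₂ f₃ w := by
  unfold Lam
  rw [← integral_const_mul]
  refine integral_congr_ae (Filter.Eventually.of_forall fun θ => ?_)
  exact tc_tri_smul ρ b₁ b₂ b₃ f₁ f₂ f₃ _

theorem tc_LamK_smul (ρ : ℂ) (k : ℂ → ℂ) (b₁ b₂ b₃ : ℂ) (f₁ f₂ f₃ : ℂ → ℂ) :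
    LamK ρ k (fun z => b₁ * f₁ z) (fun z => b₂ * f₂ z) (fun z => b₃ * f₃ z)
      = (b₁ * b₂ * b₃) * LamK ρ k f₁ f₂ f₃ := by
  unfold LamK
  rw [← integral_const_mul]
  refine integral_congr_ae (Filter.Eventually.of_forall fun w => ?_)
  simp only
  rw [tc_Lam_smul]
  ring

theorem tc_inv_smul (b : ℂ) (a : ℂ → ℂ) : 𝓕⁻ (fun ξ => b * a ξ) = fun z => b * 𝓕⁻ a z := by
  funext z
  rw [Real.fourierInv_eq, Real.fourierInv_eq, ← integral_const_mul]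
  refine integral_congr_ae (Filter.Eventually.of_forall fun v => ?_)
  simp only [Circle.smul_def, smul_eq_mul]
  ring

theorem tc_inv_zero (a : ℂ → ℂ) (h : ∀ ξ, a ξ = 0) : 𝓕⁻ a = fun _ => 0 := by
  funext z
  rw [Real.fourierInv_eq]
  simp [h]

theorem tc_c1 (ρ : ℂ) (hρ : ρ.im ≠ 0) : c1 ρ ≠ 0 := by
  intro h
  have := congrArg Complex.im h
  simp [c1] at this
  exact hρ this

theorem tc_c2 (ρ : ℂ) (hρ : ρ.im ≠ 0) : c2 ρ ≠ 0 := by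
  intro h
  have := congrArg Complex.im h
  simp [c2] at this
  exact hρ this

theorem tc_c3 : c3 ≠ 0 := by
  unfold c3; exact one_ne_zero

theorem tc_eta0 (ρ : ℂ) (hρ : ρ.im ≠ 0) : 0 < eta0 ρ := by
  have hρ0 : ρ ≠ 0 := by rintro rfl; exact hρ rfl
  have : 0 < ‖ρ‖ := norm_pos_iff.2 hρ0
  unfold eta0
  positivity

/-- a modulated piece vanishes away from its square -/
theorem tc_shift_zero (c : ℂ) (hc : c ≠ 0) (s : ℝ) (hs : 0 < s) (n : ℤ × ℤ) (a : ℂ → ℂ)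
    (κ ξ : ℂ) (h : piece c s n a (ξ + c * κ) ≠ 0) : ‖ξ / c + (κ - s * gi n)‖ ≤ 2 * s := by
  have h1 : (ξ + c * κ) / c ∈ sq s n := by
    by_contra h2
    exact h (piece_zero c s hs n a _ h2)
  have h2 := sq_diam s n _ h1
  have h3 : (ξ + c * κ) / c = ξ / c + κ := by
    field_simp
  rw [h3] at h2
  rwa [← add_sub_assoc]

theorem tc_gi_sub (m n : ℤ × ℤ) : gi (m - n) = gi m - gi n := by
  unfold gi
  simp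
  ring

/-- properties of a modulated fine piece -/
theorem tc_fine (c : ℂ) (hc : c ≠ 0) (Cs : ℝ) (hCs : 1 ≤ Cs)
    (HCs : ∀ (c : ℂ) (s : ℝ) (n : ℤ × ℤ) (a : ℂ → ℂ), c ≠ 0 → 0 < s →
      Nice a → ∀ M : ℝ, (∀ z, ‖𝓕⁻ a z‖ ≤ M) → ∀ z, ‖𝓕⁻ (piece c s n a) z‖ ≤ Cs * M)
    (Cl : ℝ) (HCl : ∀ (s : ℝ) (b : ℂ → ℂ), 0 < s → Nice b →
      (∀ ξ, s < ‖ξ‖ → b ξ = 0) → ∀ M : ℝ, (∀ z, ‖𝓕⁻ b z‖ ≤ M) →
      ∀ x y, ‖𝓕⁻ b x - 𝓕⁻ b y‖ ≤ Cl * s * M * ‖x - y‖)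
    (t s : ℝ) (ht : 0 < t) (hs : 0 < s) (l n : ℤ × ℤ) (a : ℂ → ℂ) (ha : Nice a)
    (h1 : ∀ z, ‖𝓕⁻ a z‖ ≤ 1) :
    (Nice fun ξ => piece c t l (piece c s n a) (ξ + c * (t * gi l))) ∧
    (∀ z, ‖𝓕⁻ (fun ξ => piece c t l (piece c s n a) (ξ + c * (t * gi l))) z‖ ≤ Cs ^ 2) ∧
    (∀ x y, ‖𝓕⁻ (fun ξ => piece c t l (piece c s n a) (ξ + c * (t * gi l))) x -
      𝓕⁻ (fun ξ => piece c t l (piece c s n a) (ξ + c * (t * gi l))) y‖ ≤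
        Cl * (2 * ‖c‖ * t) * Cs ^ 2 * ‖x - y‖) := by
  have hN := tc_nice_shift _ (nice_piece c t l _ (nice_piece c s n a ha)) (c * (t * gi l))
  have hB : ∀ z, ‖𝓕⁻ (fun ξ => piece c t l (piece c s n a) (ξ + c * (t * gi l))) z‖ ≤ Cs ^ 2 := by
    intro z
    rw [tc_norm_shift]
    have h2 := HCs c s n a hc hs ha 1 h1
    have h3 := HCs c t l _ hc ht (nice_piece c s n a ha) _ h2 z
    linarith [h3, show Cs * (Cs * 1) = Cs ^ 2 by ring]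
  refine ⟨hN, hB, ?_⟩
  refine HCl (2 * ‖c‖ * t) _ ?_ hN ?_ (Cs ^ 2) hB
  · have := norm_pos_iff.2 hc
    positivity
  · intro ξ hξ
    by_contra h2
    have h3 := tc_shift_zero c hc t ht l _ _ _ h2
    rw [sub_self, add_zero, norm_div, div_le_iff₀ (norm_pos_iff.2 hc)] at h3
    linarith

/-- the partner of a fine piece has high frequencies -/
theorem tc_partner (c c' : ℂ) (hc' : c' ≠ 0) (t s : ℝ) (ht : 0 < t) (hts : t ≤ s)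
    (l n n' : ℤ × ℤ) (a a' : ℂ → ℂ) (hd : 90 ≤ ‖gi n' - gi n‖)
    (ξ₀ : ℂ) (h0 : piece c t l (piece c s n a) ξ₀ ≠ 0) (ξ : ℂ) (hξ : ‖ξ‖ < 84 * ‖c'‖ * s) :
    piece c' s n' a' (ξ + c' * (t * gi l)) = 0 := by
  have hs : 0 < s := by linarith
  by_contra h1
  have h2 := tc_shift_zero c' hc' s hs n' a' _ _ h1
  have h3 : ξ₀ / c ∈ sq t l := by
    by_contra h; exact h0 (piece_zero c t ht l _ _ h)
  have h4 : ξ₀ / c ∈ sq s n := by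
    by_contra h
    apply h0
    unfold piece
    have := piece_zero c s hs n a ξ₀ h
    unfold piece at this
    rw [this, mul_zero]
  have h5 := sq_diam t l _ h3
  have h6 := sq_diam s n _ h4
  have h7 : ‖(t * gi l : ℂ) - s * gi n‖ ≤ 4 * s := by
    calc ‖(t * gi l : ℂ) - s * gi n‖ = ‖(ξ₀ / c - s * gi n) - (ξ₀ / c - t * gi l)‖ := by
          congr 1; ring
      _ ≤ ‖ξ₀ / c - s * gi n‖ + ‖ξ₀ / c - t * gi l‖ := norm_sub_le _ _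
      _ ≤ 4 * s := by linarith
  have h8 : ‖ξ / c'‖ < 84 * s := by
    rw [norm_div, div_lt_iff₀ (norm_pos_iff.2 hc')]
    linarith
  have h9 : 90 * s ≤ ‖(s : ℂ) * (gi n' - gi n)‖ := by
    rw [norm_mul, Complex.norm_real, Real.norm_of_nonneg hs.le]
    nlinarith
  have h10 : ‖(s : ℂ) * (gi n' - gi n)‖ ≤ 2 * s + ‖ξ / c'‖ + 4 * s := by
    calc ‖(s : ℂ) * (gi n' - gi n)‖
        = ‖(-(ξ / c' + ((t * gi l : ℂ) - s * gi n')) + ξ / c') + ((t * gi l : ℂ) - s * gi n)‖ := by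
          congr 1; ring
      _ ≤ ‖-(ξ / c' + ((t * gi l : ℂ) - s * gi n')) + ξ / c'‖ + ‖(t * gi l : ℂ) - s * gi n‖ :=
          norm_add_le _ _
      _ ≤ (‖-(ξ / c' + ((t * gi l : ℂ) - s * gi n'))‖ + ‖ξ / c'‖)
            + ‖(t * gi l : ℂ) - s * gi n‖ := by
          gcongr
          exact norm_add_le _ _
      _ ≤ 2 * s + ‖ξ / c'‖ + 4 * s := by
          rw [norm_neg]
          linarith
  linarith

/-- choice of the scales -/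
theorem tc_scales (e A Cl k k' : ℝ) (he : 0 < e) (hA : 0 < A) (hCl : 0 < Cl) (hk : 0 < k)
    (hk' : 0 < k') : ∃ η : ℝ, 0 < η ∧ η ≤ e ∧ ∃ R₀ : ℝ, 1 ≤ R₀ ∧ ∀ S : ℝ, R₀ ≤ S →
      1 ≤ Cl * (2 * k * (η * S)) ∧ A * (Cl * (2 * k * (η * S))) ≤ 84 * k' * (e * S) := by
  refine ⟨min e (42 * k' * e / (A * Cl * k)), by positivity, min_le_left _ _,
    max 1 (1 / (Cl * (2 * k * min e (42 * k' * e / (A * Cl * k))))), le_max_left _ _, ?_⟩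
  set η := min e (42 * k' * e / (A * Cl * k)) with hη
  have hη0 : 0 < η := by positivity
  intro S hS
  have hS1 : 1 ≤ S := (le_max_left _ _).trans hS
  have hS2 : 1 / (Cl * (2 * k * η)) ≤ S := (le_max_right _ _).trans hS
  constructor
  · rw [div_le_iff₀ (by positivity)] at hS2
    calc (1 : ℝ) ≤ S * (Cl * (2 * k * η)) := hS2
      _ = Cl * (2 * k * (η * S)) := by ring
  · have h1 : η ≤ 42 * k' * e / (A * Cl * k) := min_le_right _ _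
    rw [le_div_iff₀ (by positivity)] at h1
    have h2 : 0 ≤ S := by linarith
    nlinarith [mul_le_mul_of_nonneg_right h1 h2]

theorem tc_Lam_smul3 (ρ b : ℂ) (hb : b ≠ 0) (f₁ f₂ f₃ : ℂ → ℂ) (w : ℂ) :
    Lam ρ f₁ f₂ f₃ w = b * Lam ρ f₁ f₂ (fun z => b⁻¹ * f₃ z) w := by
  have h7 := tc_Lam_smul ρ 1 1 b⁻¹ f₁ f₂ f₃ w
  simp only [one_mul] at h7
  rw [h7, mul_inv_cancel_left₀ hb]

theorem tc_Lam_smul2 (ρ b : ℂ) (hb : b ≠ 0) (f₁ f₂ f₃ : ℂ → ℂ) (w : ℂ) :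
    Lam ρ f₁ f₂ f₃ w = b * Lam ρ f₁ (fun z => b⁻¹ * f₂ z) f₃ w := by
  have h7 := tc_Lam_smul ρ 1 b⁻¹ 1 f₁ f₂ f₃ w
  simp only [one_mul, mul_one] at h7
  rw [h7, mul_inv_cancel_left₀ hb]

theorem tc_final (ρ : ℂ) (S : ℝ) (hS : 0 < S) (CK : ℝ) (hCK : 0 ≤ CK)
    (HCK : ∀ (S : ℝ) (f₁ f₂ f₃ : ℂ → ℂ) (B : ℝ), 0 < S →
    (∀ w, ‖Lam ρ f₁ f₂ f₃ w‖ ≤ B) → ‖LamK ρ (kR S) f₁ f₂ f₃‖ ≤ CK * B)
    (ε M : ℝ) (hε : 0 < ε) (hM : 0 < M) (f₁ f₂ f₃ : ℂ → ℂ) (x y : ℝ) (hx : 0 ≤ x) (hy : 0 ≤ y)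
    (h : ∀ w, ‖Lam ρ f₁ f₂ f₃ w‖ ≤ M * (ε / (CK * M + 1) * x * y)) :
    ‖LamK ρ (kR S) f₁ f₂ f₃‖ ≤ ε * x * y := by
  refine (HCK S _ _ _ _ hS h).trans ?_
  have h8 : CK * M * (ε / (CK * M + 1)) ≤ ε := by
    rw [← mul_div_assoc, div_le_iff₀ (by positivity)]
    nlinarith
  calc CK * (M * (ε / (CK * M + 1) * x * y))
      = (CK * M * (ε / (CK * M + 1))) * (x * y) := by ring
    _ ≤ ε * (x * y) := mul_le_mul_of_nonneg_right h8 (by positivity)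
    _ = _ := by ring

theorem tc_div_bound (M R' : ℝ) (hM : 0 < M) (G : ℂ → ℂ) (h1 : ∀ z, ‖G z‖ ≤ M)
    (h2 : ∀ x y, ‖G x - G y‖ ≤ R' * M * ‖x - y‖) :
    (∀ x, ‖(fun z => (M : ℂ)⁻¹ * G z) x‖ ≤ 1) ∧
    (∀ x y, ‖(fun z => (M : ℂ)⁻¹ * G z) x - (fun z => (M : ℂ)⁻¹ * G z) y‖ ≤ R' * ‖x - y‖) := by
  constructor
  · intro x
    simp only
    rw [norm_mul, norm_inv, Complex.norm_real, Real.norm_of_nonneg hM.le,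
          inv_mul_le_iff₀ hM, mul_one]
    exact h1 x
  · intro x y
    simp only
    rw [← mul_sub, norm_mul, norm_inv, Complex.norm_real, Real.norm_of_nonneg hM.le,
          inv_mul_le_iff₀ hM]
    calc _ ≤ R' * M * ‖x - y‖ := h2 x y
      _ = _ := by ring

theorem tc_lam3 (ρ : ℂ) (ε' A R' : ℝ) (hε' : 0 < ε') (h : ℂ → ℂ) (a : ℂ → ℂ)
    (HA : ∀ g : ℂ → ℂ, (∀ x, ‖g x‖ ≤ 1) → (∀ x y, ‖g x - g y‖ ≤ R' * ‖x - y‖) → ∀ w : ℂ,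
      ‖Lam ρ (𝓕⁻ h) (𝓕⁻ a) g w‖ ≤
        ε' * Real.sqrt (∫ z, ‖h z‖ ^ 2) * Real.sqrt (∫ z, ‖a z‖ ^ 2))
    (M : ℝ) (hM : 0 < M) (G : ℂ → ℂ) (h1 : ∀ z, ‖G z‖ ≤ M)
    (h2 : ∀ x y, ‖G x - G y‖ ≤ R' * M * ‖x - y‖) (x y : ℝ)
    (hx : Real.sqrt (∫ z, ‖h z‖ ^ 2) ≤ x) (hy : Real.sqrt (∫ z, ‖a z‖ ^ 2) ≤ y) (w : ℂ) :
    ‖Lam ρ (𝓕⁻ h) (𝓕⁻ a) G w‖ ≤ M * (ε' * x * y) := by
  obtain ⟨d1, d2⟩ := tc_div_bound M R' hM G h1 h2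
  rw [tc_Lam_smul3 ρ (M : ℂ) (by exact_mod_cast hM.ne'), norm_mul, Complex.norm_real,
    Real.norm_of_nonneg hM.le]
  apply mul_le_mul_of_nonneg_left _ hM.le
  refine (HA _ d1 d2 w).trans ?_
  have := (Real.sqrt_nonneg _).trans hx
  have := (Real.sqrt_nonneg _).trans hy
  gcongr

theorem tc_lam2 (ρ : ℂ) (ε' A R' : ℝ) (hε' : 0 < ε') (h : ℂ → ℂ) (a : ℂ → ℂ)
    (HA : ∀ g : ℂ → ℂ, (∀ x, ‖g x‖ ≤ 1) → (∀ x y, ‖g x - g y‖ ≤ R' * ‖x - y‖) → ∀ w : ℂ,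
      ‖Lam ρ (𝓕⁻ h) g (𝓕⁻ a) w‖ ≤
        ε' * Real.sqrt (∫ z, ‖h z‖ ^ 2) * Real.sqrt (∫ z, ‖a z‖ ^ 2))
    (M : ℝ) (hM : 0 < M) (G : ℂ → ℂ) (h1 : ∀ z, ‖G z‖ ≤ M)
    (h2 : ∀ x y, ‖G x - G y‖ ≤ R' * M * ‖x - y‖) (x y : ℝ)
    (hx : Real.sqrt (∫ z, ‖h z‖ ^ 2) ≤ x) (hy : Real.sqrt (∫ z, ‖a z‖ ^ 2) ≤ y) (w : ℂ) :
    ‖Lam ρ (𝓕⁻ h) G (𝓕⁻ a) w‖ ≤ M * (ε' * x * y) := by
  obtain ⟨d1, d2⟩ := tc_div_bound M R' hM G h1 h2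
  rw [tc_Lam_smul2 ρ (M : ℂ) (by exact_mod_cast hM.ne'), norm_mul, Complex.norm_real,
    Real.norm_of_nonneg hM.le]
  apply mul_le_mul_of_nonneg_left _ hM.le
  refine (HA _ d1 d2 w).trans ?_
  have := (Real.sqrt_nonneg _).trans hx
  have := (Real.sqrt_nonneg _).trans hy
  gcongr

theorem tc_sqrt_piece (c : ℂ) (hc : c ≠ 0) (s : ℝ) (hs : 0 < s) (n : ℤ × ℤ) (a : ℂ → ℂ)
    (ha : Nice a) (b : ℂ) :
    Real.sqrt (∫ z, ‖piece c s n a (z + b)‖ ^ 2) ≤ Real.sqrt ((mu c a).real (sq s n)) := by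
  rw [tc_int_shift]
  exact Real.sqrt_le_sqrt (piece_l2 c hc s hs n a ha)

/-- one fine piece (third function concentrated) -/
theorem fine3 (ρ : ℂ) (hρ : ρ.im ≠ 0) : ∀ ε : ℝ, 0 < ε → ∃ η : ℝ, 0 < η ∧ η ≤ eta0 ρ ∧
    ∃ R₀ : ℝ, 1 ≤ R₀ ∧ ∀ S : ℝ, R₀ ≤ S → ∀ a₁ a₂ a₃ : ℂ → ℂ, Nice a₁ → Nice a₂ → Nice a₃ →
    (∀ z, ‖𝓕⁻ a₃ z‖ ≤ 1) → ∀ n₁ n₂ n₃ l : ℤ × ℤ, 90 ≤ ‖gi (n₂ - n₃)‖ →
    ‖LamK ρ (kR S) (𝓕⁻ (piece (c1 ρ) (eta0 ρ * S) n₁ a₁)) (𝓕⁻ (piece (c2 ρ) (eta0 ρ * S) n₂ a₂))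
      (𝓕⁻ (piece c3 (η * S) l (piece c3 (eta0 ρ * S) n₃ a₃)))‖ ≤
      ε * Real.sqrt ((mu (c1 ρ) a₁).real (sq (eta0 ρ * S) n₁)) *
        Real.sqrt ((mu (c2 ρ) a₂).real (sq (eta0 ρ * S) n₂)) := by
  intro ε hε
  obtain ⟨Cs, hCs, HCs⟩ := piece_sup
  obtain ⟨Cl, hCl, HCl⟩ := low_lip
  obtain ⟨CK, hCK, HCK⟩ := lamK_le_sup ρ
  have hε' : 0 < ε / (CK * Cs ^ 2 + 1) := by positivity
  obtain ⟨A, hA, HA⟩ := osc_lam2 ρ hρ (ε / (CK * Cs ^ 2 + 1)) hε'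
  have he := tc_eta0 ρ hρ
  obtain ⟨η, hη, hη1, R₀, hR₀, HS⟩ := tc_scales (eta0 ρ) A Cl ‖c3‖ ‖c2 ρ‖ he hA (by linarith)
    (norm_pos_iff.2 tc_c3) (norm_pos_iff.2 (tc_c2 ρ hρ))
  refine ⟨η, hη, hη1, R₀, hR₀, fun S hS a₁ a₂ a₃ h₁ h₂ h₃ hb n₁ n₂ n₃ l hd => ?_⟩
  obtain ⟨hS1, hS2⟩ := HS S hS
  have hS0 : 0 < S := by linarith
  have hsp : 0 < eta0 ρ * S := by positivity
  have htp : 0 < η * S := by positivity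
  have hCs2 : (0 : ℝ) < Cs ^ 2 := by positivity
  by_cases hz : ∀ ξ, piece c3 (η * S) l (piece c3 (eta0 ρ * S) n₃ a₃) ξ = 0
  · rw [tc_inv_zero _ hz]
    have : LamK ρ (kR S) (𝓕⁻ (piece (c1 ρ) (eta0 ρ * S) n₁ a₁))
        (𝓕⁻ (piece (c2 ρ) (eta0 ρ * S) n₂ a₂)) (fun _ => 0) = 0 := by
      simp [LamK, Lam, tri]
    rw [this, norm_zero]
    positivity
  push Not at hz
  obtain ⟨ξ₀, hξ₀⟩ := hz
  rw [← lamK_mod ρ (kR S) (((η * S : ℝ) : ℂ) * gi l)]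
  obtain ⟨hN, hB, hL⟩ := tc_fine c3 tc_c3 Cs hCs HCs Cl HCl (η * S) (eta0 ρ * S) htp hsp l n₃ a₃ h₃ hb
  have hN1 := tc_nice_shift _ (nice_piece (c1 ρ) (eta0 ρ * S) n₁ a₁ h₁)
    (c1 ρ * (((η * S : ℝ) : ℂ) * gi l))
  have hN2 := tc_nice_shift _ (nice_piece (c2 ρ) (eta0 ρ * S) n₂ a₂ h₂)
    (c2 ρ * (((η * S : ℝ) : ℂ) * gi l))
  have hz2 : ∀ ξ, ‖ξ‖ < A * (Cl * (2 * ‖c3‖ * (η * S))) →
      piece (c2 ρ) (eta0 ρ * S) n₂ a₂ (ξ + c2 ρ * (((η * S : ℝ) : ℂ) * gi l)) = 0 := by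
    intro ξ hξ
    refine tc_partner c3 (c2 ρ) (tc_c2 ρ hρ) (η * S) (eta0 ρ * S) htp
      (mul_le_mul_of_nonneg_right hη1 hS0.le) l n₃ n₂ a₃ a₂ ?_ ξ₀ hξ₀ ξ (lt_of_lt_of_le hξ hS2)
    rw [← tc_gi_sub]; exact hd
  exact tc_final ρ S hS0 CK hCK HCK ε (Cs ^ 2) hε hCs2 _ _ _ _ _ (Real.sqrt_nonneg _)
    (Real.sqrt_nonneg _) (tc_lam3 ρ _ A _ hε' _ _ (HA _ hS1 _ _ hN1 hN2 hz2) (Cs ^ 2) hCs2 _ hB hL
      _ _ (tc_sqrt_piece _ (tc_c1 ρ hρ) _ hsp _ _ h₁ _) (tc_sqrt_piece _ (tc_c2 ρ hρ) _ hsp _ _ h₂ _))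

/-- one fine piece (second function concentrated) -/
theorem fine2 (ρ : ℂ) (hρ : ρ.im ≠ 0) : ∀ ε : ℝ, 0 < ε → ∃ η : ℝ, 0 < η ∧ η ≤ eta0 ρ ∧
    ∃ R₀ : ℝ, 1 ≤ R₀ ∧ ∀ S : ℝ, R₀ ≤ S → ∀ a₁ a₂ a₃ : ℂ → ℂ, Nice a₁ → Nice a₂ → Nice a₃ →
    (∀ z, ‖𝓕⁻ a₂ z‖ ≤ 1) → ∀ n₁ n₂ n₃ l : ℤ × ℤ, 90 ≤ ‖gi (n₂ - n₃)‖ →
    ‖LamK ρ (kR S) (𝓕⁻ (piece (c1 ρ) (eta0 ρ * S) n₁ a₁))
      (𝓕⁻ (piece (c2 ρ) (η * S) l (piece (c2 ρ) (eta0 ρ * S) n₂ a₂)))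
      (𝓕⁻ (piece c3 (eta0 ρ * S) n₃ a₃))‖ ≤
      ε * Real.sqrt ((mu (c1 ρ) a₁).real (sq (eta0 ρ * S) n₁)) *
        Real.sqrt ((mu c3 a₃).real (sq (eta0 ρ * S) n₃)) := by
  intro ε hε
  obtain ⟨Cs, hCs, HCs⟩ := piece_sup
  obtain ⟨Cl, hCl, HCl⟩ := low_lip
  obtain ⟨CK, hCK, HCK⟩ := lamK_le_sup ρ
  have hε' : 0 < ε / (CK * Cs ^ 2 + 1) := by positivity
  obtain ⟨A, hA, HA⟩ := osc_lam3 ρ hρ (ε / (CK * Cs ^ 2 + 1)) hε'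
  have he := tc_eta0 ρ hρ
  obtain ⟨η, hη, hη1, R₀, hR₀, HS⟩ := tc_scales (eta0 ρ) A Cl ‖c2 ρ‖ ‖c3‖ he hA (by linarith)
    (norm_pos_iff.2 (tc_c2 ρ hρ)) (norm_pos_iff.2 tc_c3)
  refine ⟨η, hη, hη1, R₀, hR₀, fun S hS a₁ a₂ a₃ h₁ h₂ h₃ hb n₁ n₂ n₃ l hd => ?_⟩
  obtain ⟨hS1, hS2⟩ := HS S hS
  have hS0 : 0 < S := by linarith
  have hsp : 0 < eta0 ρ * S := by positivity
  have htp : 0 < η * S := by positivity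
  have hCs2 : (0 : ℝ) < Cs ^ 2 := by positivity
  by_cases hz : ∀ ξ, piece (c2 ρ) (η * S) l (piece (c2 ρ) (eta0 ρ * S) n₂ a₂) ξ = 0
  · rw [tc_inv_zero _ hz]
    have : LamK ρ (kR S) (𝓕⁻ (piece (c1 ρ) (eta0 ρ * S) n₁ a₁))
        (fun _ => 0) (𝓕⁻ (piece c3 (eta0 ρ * S) n₃ a₃)) = 0 := by
      simp [LamK, Lam, tri]
    rw [this, norm_zero]
    positivity
  push Not at hz
  obtain ⟨ξ₀, hξ₀⟩ := hz
  rw [← lamK_mod ρ (kR S) (((η * S : ℝ) : ℂ) * gi l)]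
  obtain ⟨hN, hB, hL⟩ := tc_fine (c2 ρ) (tc_c2 ρ hρ) Cs hCs HCs Cl HCl (η * S) (eta0 ρ * S) htp hsp
    l n₂ a₂ h₂ hb
  have hN1 := tc_nice_shift _ (nice_piece (c1 ρ) (eta0 ρ * S) n₁ a₁ h₁)
    (c1 ρ * (((η * S : ℝ) : ℂ) * gi l))
  have hN3 := tc_nice_shift _ (nice_piece c3 (eta0 ρ * S) n₃ a₃ h₃)
    (c3 * (((η * S : ℝ) : ℂ) * gi l))
  have hz3 : ∀ ξ, ‖ξ‖ < A * (Cl * (2 * ‖c2 ρ‖ * (η * S))) →
      piece c3 (eta0 ρ * S) n₃ a₃ (ξ + c3 * (((η * S : ℝ) : ℂ) * gi l)) = 0 := by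
    intro ξ hξ
    refine tc_partner (c2 ρ) c3 tc_c3 (η * S) (eta0 ρ * S) htp
      (mul_le_mul_of_nonneg_right hη1 hS0.le) l n₂ n₃ a₂ a₃ ?_ ξ₀ hξ₀ ξ (lt_of_lt_of_le hξ hS2)
    rw [norm_sub_rev, ← tc_gi_sub]; exact hd
  exact tc_final ρ S hS0 CK hCK HCK ε (Cs ^ 2) hε hCs2 _ _ _ _ _ (Real.sqrt_nonneg _)
    (Real.sqrt_nonneg _) (tc_lam2 ρ _ A _ hε' _ _ (HA _ hS1 _ _ hN1 hN3 hz3) (Cs ^ 2) hCs2 _ hB hL
      _ _ (tc_sqrt_piece _ (tc_c1 ρ hρ) _ hsp _ _ h₁ _) (tc_sqrt_piece _ tc_c3 _ hsp _ _ h₃ _))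

/-- one modulated, rescaled piece -/
theorem tc_event_piece (c : ℂ) (hc : c ≠ 0) (Cs : ℝ) (hCs : 1 ≤ Cs)
    (HCs : ∀ (c : ℂ) (s : ℝ) (n : ℤ × ℤ) (a : ℂ → ℂ), c ≠ 0 → 0 < s →
      Nice a → ∀ M : ℝ, (∀ z, ‖𝓕⁻ a z‖ ≤ M) → ∀ z, ‖𝓕⁻ (piece c s n a) z‖ ≤ Cs * M)
    (s : ℝ) (hs : 0 < s) (n n' : ℤ × ℤ) (a : ℂ → ℂ) (ha : Nice a) (h1 : ∀ z, ‖𝓕⁻ a z‖ ≤ 1)
    (V : ℝ) (hV : ∫ ξ, ‖a ξ‖ ^ 2 ≤ V) (M C₁ : ℝ) (hM : ‖gi n' - gi n‖ ≤ M)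
    (hC₁ : ‖c‖ * (M + 2) * s ≤ C₁) :
    (Nice fun ξ => (Cs : ℂ)⁻¹ * piece c s n a (ξ + c * (s * gi n'))) ∧
    (∀ ξ, C₁ < ‖ξ‖ → (Cs : ℂ)⁻¹ * piece c s n a (ξ + c * (s * gi n')) = 0) ∧
    (∀ z, ‖𝓕⁻ (fun ξ => (Cs : ℂ)⁻¹ * piece c s n a (ξ + c * (s * gi n'))) z‖ ≤ 1) ∧
    (∫ ξ, ‖(Cs : ℂ)⁻¹ * piece c s n a (ξ + c * (s * gi n'))‖ ^ 2) ≤ V := by
  have hN := tc_nice_shift _ (nice_piece c s n a ha) (c * (s * gi n'))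
  have hCs0 : (0 : ℝ) < Cs := by linarith
  refine ⟨?_, ?_, ?_, ?_⟩
  · constructor
    · exact contDiff_const.mul hN.smooth
    · exact hN.compact.mul_left
  · intro ξ hξ
    by_contra h2
    have h3 : piece c s n a (ξ + c * (s * gi n')) ≠ 0 := right_ne_zero_of_mul h2
    have h4 := tc_shift_zero c hc s hs n _ _ _ h3
    have h5 : ‖ξ / c‖ ≤ 2 * s + s * M := by
      calc ‖ξ / c‖ = ‖(ξ / c + ((s : ℂ) * gi n' - s * gi n)) - (s : ℂ) * (gi n' - gi n)‖ := by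
            congr 1; ring
        _ ≤ ‖ξ / c + ((s : ℂ) * gi n' - s * gi n)‖ + ‖(s : ℂ) * (gi n' - gi n)‖ := norm_sub_le _ _
        _ ≤ 2 * s + s * M := by
            rw [norm_mul, Complex.norm_real, Real.norm_of_nonneg hs.le]
            exact add_le_add h4 (mul_le_mul_of_nonneg_left hM hs.le)
    rw [norm_div, div_le_iff₀ (norm_pos_iff.2 hc)] at h5
    have h6 : (2 * s + s * M) * ‖c‖ = ‖c‖ * (M + 2) * s := by ring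
    linarith
  · intro z
    rw [tc_inv_smul]
    simp only
    rw [norm_mul, norm_inv, Complex.norm_real, Real.norm_of_nonneg hCs0.le,
      inv_mul_le_iff₀ hCs0, mul_one, tc_norm_shift]
    simpa using HCs c s n a hc hs ha 1 h1 z
  · have h2 : (∫ ξ, ‖piece c s n a (ξ + c * (s * gi n'))‖ ^ 2) ≤ V := by
      rw [tc_int_shift]
      refine (piece_l2 c hc s hs n a ha).trans (le_trans ?_ hV)
      rw [← mu_univ c a ha]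
      have := mu_finite c a ha
      exact measureReal_mono (subset_univ _)
    refine le_trans ?_ h2
    apply integral_mono_of_nonneg (Filter.Eventually.of_forall fun ξ => by positivity)
    · have := (nice_memLp _ hN).1.integrable_norm_pow (p := 2) (by norm_num)
      simpa using this
    · refine Filter.Eventually.of_forall fun ξ => ?_
      simp only
      rw [norm_mul, norm_inv, Complex.norm_real, Real.norm_of_nonneg hCs0.le]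
      apply pow_le_pow_left₀ (by positivity)
      rw [inv_mul_le_iff₀ hCs0]
      nlinarith [norm_nonneg (piece c s n a (ξ + c * (s * gi n')))]

/-- events: SS for a triple of pieces -/
theorem event_ss (ρ : ℂ) (hi : ρ.im ≠ 0) (_h0 : ρ.re ≠ 0) (_h1 : ρ.re ≠ 1) (hss : PropSS ρ) (M : ℝ) :
    ∀ V ε : ℝ, 0 < V → 0 < ε → ∃ R₀ : ℝ, 1 ≤ R₀ ∧ ∀ S : ℝ, R₀ ≤ S → ∀ a₁ a₂ a₃ : ℂ → ℂ,
      Nice a₁ → Nice a₂ → Nice a₃ →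
      (∀ z, ‖𝓕⁻ a₁ z‖ ≤ 1) → (∀ z, ‖𝓕⁻ a₂ z‖ ≤ 1) → (∀ z, ‖𝓕⁻ a₃ z‖ ≤ 1) →
      (∫ ξ, ‖a₁ ξ‖ ^ 2) ≤ V → (∫ ξ, ‖a₂ ξ‖ ^ 2) ≤ V → (∫ ξ, ‖a₃ ξ‖ ^ 2) ≤ V →
      ∀ n₁ n₂ n₃ : ℤ × ℤ, Good M n₁ n₂ n₃ → ‖pf ρ S n₁ n₂ n₃ a₁ a₂ a₃‖ ≤ ε := by
  intro V ε hV hε
  obtain ⟨Cs, hCs, HCs⟩ := piece_sup
  have hCs0 : (0 : ℝ) < Cs := by linarith
  have he := tc_eta0 ρ hi
  set C₀ : ℝ := (‖c1 ρ‖ + ‖c2 ρ‖ + ‖c3‖) * (|M| + 2) * eta0 ρ with hC₀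
  have hc3 : 0 < ‖c3‖ := norm_pos_iff.2 tc_c3
  have hC₀' : 0 < C₀ := by positivity
  obtain ⟨R₀, hR₀, H⟩ := hss C₀ V (ε / Cs ^ 3) hC₀' hV (by positivity)
  refine ⟨R₀, hR₀, fun S hS a₁ a₂ a₃ k₁ k₂ k₃ b₁ b₂ b₃ v₁ v₂ v₃ n₁ n₂ n₃ hG => ?_⟩
  have hS0 : 0 < S := by linarith
  have hsp : 0 < eta0 ρ * S := by positivity
  have hm : ∀ x : ℝ, x ≤ ‖c1 ρ‖ + ‖c2 ρ‖ + ‖c3‖ →
      x * (|M| + 2) * (eta0 ρ * S) ≤ C₀ * S := by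
    intro x hx
    calc x * (|M| + 2) * (eta0 ρ * S) ≤ (‖c1 ρ‖ + ‖c2 ρ‖ + ‖c3‖) * (|M| + 2) * (eta0 ρ * S) := by
          apply mul_le_mul_of_nonneg_right _ hsp.le
          exact mul_le_mul_of_nonneg_right hx (by positivity)
      _ = C₀ * S := by rw [hC₀]; ring
  have g1 : ‖gi n₃ - gi n₁‖ ≤ |M| := by
    rw [norm_sub_rev, ← tc_gi_sub]; exact hG.2.1.2.trans (le_abs_self _)
  have g2 : ‖gi n₃ - gi n₂‖ ≤ |M| := by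
    rw [norm_sub_rev, ← tc_gi_sub]; exact hG.2.2.2.trans (le_abs_self _)
  have g3 : ‖gi n₃ - gi n₃‖ ≤ |M| := by
    rw [sub_self, norm_zero]; exact abs_nonneg _
  obtain ⟨p1, p2, p3, p4⟩ := tc_event_piece (c1 ρ) (tc_c1 ρ hi) Cs hCs HCs (eta0 ρ * S) hsp n₁ n₃ a₁ k₁
    b₁ V v₁ |M| (C₀ * S) g1 (hm _ (by linarith [norm_nonneg (c2 ρ), norm_nonneg c3]))
  obtain ⟨q1, q2, q3, q4⟩ := tc_event_piece (c2 ρ) (tc_c2 ρ hi) Cs hCs HCs (eta0 ρ * S) hsp n₂ n₃ a₂ k₂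
    b₂ V v₂ |M| (C₀ * S) g2 (hm _ (by linarith [norm_nonneg (c1 ρ), norm_nonneg c3]))
  obtain ⟨r1, r2, r3, r4⟩ := tc_event_piece c3 tc_c3 Cs hCs HCs (eta0 ρ * S) hsp n₃ n₃ a₃ k₃
    b₃ V v₃ |M| (C₀ * S) g3 (hm _ (by linarith [norm_nonneg (c1 ρ), norm_nonneg (c2 ρ)]))
  have hfin := H S hS _ _ _ p1 q1 r1 p2 q2 r2 p3 q3 r3 p4 q4 r4
  rw [tc_inv_smul, tc_inv_smul, tc_inv_smul, tc_LamK_smul,
    lamK_mod ρ (kR S) (((eta0 ρ * S : ℝ) : ℂ) * gi n₃), norm_mul] at hfin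
  have hn : ‖(Cs : ℂ)⁻¹ * (Cs : ℂ)⁻¹ * (Cs : ℂ)⁻¹‖ = (Cs ^ 3)⁻¹ := by
    rw [norm_mul, norm_mul, norm_inv, Complex.norm_real, Real.norm_of_nonneg hCs0.le]
    field_simp
  rw [hn, inv_mul_le_iff₀ (by positivity), mul_div_cancel₀ _ (by positivity)] at hfin
  exact hfin

end Pool.Agent.H24.Tri
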